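import Pool.Agent.X213.CPq

/-!
# The Campana-Peternell inequality for quotients of products of hypersurfaces

Let `F i` be a form of degree `d i` in `n i + 1` variables whose zero set in the projective
`n i`-space is a smooth hypersurface, and let `H i` be the cyclic hypersurface `w ^ (d i) = F i` in
the projective `(n i + 1)`-space. Let `X` be a projective manifold which is birational to a quotient
`(H 1 × ... × H r) / G`, where `G` is any group of diagonal automorphisms
`w i ↦ ζ i * w i`, `ζ i ^ (d i) = 1`. Equivalently, the function field `K` of `X` is generated by the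
affine coordinates `x i j / x i 0` of the product of the projective `n i`-spaces and by roots `z j`,
`z j ^ (m j) = ∏ i, (F i (x i) / x i 0 ^ (d i)) ^ (a j i)`, where `m j` divides `a j i * d i`.

Let `A` be ANY divisor on `X` with `κ (A) ≥ 0` such that `ρ K_X - A` is pseudo-effective for some
`ρ ≥ 1` (so `K_X` is, up to `ℚ`-linear equivalence, the sum of the effective `ℚ`-divisor `A / ρ` and
a pseudo-effective one). Then `κ (A) ≤ κ (X)`, and `κ (X) = ∑ i ∈ I, n i`, where `I` is the set of the
`i` such that `v i = 0` for every admissible vector `v` of weight one: the `Admissible` vectors are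
the vectors `v ≠ 0` of nonnegative integers with `m j ∣ ∑ i, a j i * v i` for all `j` (the
multiplicities of the hypersurfaces along the divisors over `X`), and the weight of `v` is
`∑ i, (1 - (n i + 1) / d i) * v i`.

The quotients have quotient singularities, in general not canonical ones; the canonical class of `X`
is in general not the pullback of the canonical class of the quotient, and `κ (X)` may be smaller than
the sum of the Kodaira dimensions of the `H i`. `A` may have components which are exceptional over
the quotient.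

Method. If there is such an `A` then `K_X` is pseudo-effective, and by the theorem of the starting
file `MP_c2a5fc_ag.HypersurfaceQuotients` the numerical dimension of `K_X` is `∑ i ∈ I, n i`. The
products of a section of `j (ρ K_X - A) + H` with the monomials in the sections of a multiple of `A`
are sections of a multiple of `K_X` twisted by `H`, and their number is bounded by the numerical
dimension.
-/

set_option autoImplicit false

open FF MvPolynomial Pool.Agent.W602.GT

namespace Pool.Agent.Results.MP_370cf3_ag.HypersurfaceQuotients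

/-- The form `F` has no singular zeros: its partial derivatives have no common zero but `0`. -/
def Smooth {n : ℕ} (F : MvPolynomial (Fin (n + 1)) ℂ) : Prop :=
  ∀ x : Fin (n + 1) → ℂ, x ≠ 0 → ∃ l, eval x (pderiv l F) ≠ 0

/-- The affine coordinates of the product of the projective spaces. -/
noncomputable def affine {r : ℕ} {n : Fin r → ℕ} {K : Type} [Field K]
    (x : ∀ i, Fin (n i + 1) → K) (b : (i : Fin r) × Fin (n i)) : K :=
  x b.1 b.2.succ / x b.1 0

section

variable {r R : ℕ}

/-- The multiplicities which satisfy the divisibility conditions. -/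
def Admissible (m : Fin R → ℕ) (a : Fin R → Fin r → ℕ) (v : Fin r → ℕ) : Prop :=
  v ≠ 0 ∧ ∀ j, m j ∣ ∑ i, a j i * v i

/-- The weight `∑ i, (1 - (n i + 1) / d i) * v i`. -/
def weight (n d v : Fin r → ℕ) : ℚ := ∑ i, (1 - ((n i : ℚ) + 1) / d i) * v i

end

section sections

/-- `ω` is a section of `m K_X + j A`: a rational section of the `m`-th power of the canonical
bundle (`IsPluri`: a function of `N` rational vector fields which is multiplied by `det B ^ m` under
a linear substitution `B`) whose order on the vector fields which are regular at `P` is at least `j`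
times the order of one of the functions in `S`, for all prime divisors `P` over `X` (all divisorial
places `P` of `K`). Here `A` is the divisor which is generated by the finite set `S` of functions;
`A = 0` if `S = {1}`. -/
def IsSection {K : Type} [Field K] [Algebra ℂ K] (N : ℕ) (S : Finset K) (m j : ℕ)
    (ω : (Fin N → Derivation ℂ K K) → K) : Prop :=
  IsPluri m ω ∧ ∀ P : Place ℂ K, Divisorial N P → ∀ D : Fin N → Derivation ℂ K K,
    (∀ c, DerReg P (D c)) → ω D = 0 ∨ ∃ s ∈ S, s ≠ 0 ∧ j * P.ord s ≤ P.ord (ω D)

variable (N : ℕ) (K : Type) [Field K] [Algebra ℂ K]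

/-- `κ (X) ≥ h`: for some `m > 0` there are sections of `m K_X` whose ratios contain `h`
algebraically independent functions (for `h = 0`: there is a nonzero section). -/
def KodairaGe (h : ℕ) : Prop :=
  ∃ m : ℕ, 0 < m ∧ ∃ ω : Fin (h + 1) → (Fin N → Derivation ℂ K K) → K,
    (∀ b, IsSection N {1} m 1 (ω b)) ∧
    ∃ D, ω 0 D ≠ 0 ∧ AlgebraicIndependent ℂ (fun b : Fin h => ω b.succ D / ω 0 D)

end sections

section parts

variable (N : ℕ) (K : Type) [Field K] [Algebra ℂ K]

/-- `r K_X - A` is pseudo-effective, where `a P` is the multiplicity of (the pull back of) the divisor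
`A` at the prime divisor `P` over `X`: for some divisor `H`, generated by a finite set `S` of
functions, the divisors `j (r K_X - A) + H`, `j ≥ 1`, are effective. -/
def RestPseudoeffective (r : ℕ) (a : Place ℂ K → ℤ) : Prop :=
  ∃ S : Finset K, ∀ j : ℕ, 1 ≤ j → ∃ ω : (Fin N → Derivation ℂ K K) → K, ω ≠ 0 ∧
    IsPluri (j * r) ω ∧ ∀ P : Place ℂ K, Divisorial N P → ∀ D : Fin N → Derivation ℂ K K,
      (∀ c, DerReg P (D c)) → ω D = 0 ∨ ∃ s ∈ S, s ≠ 0 ∧ j * a P + P.ord s ≤ P.ord (ω D)

/-- `κ (A) ≥ h`: for some `m > 0` there are sections of `m A` (functions `f` with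
`ord_P f + m A_P ≥ 0`) whose ratios contain `h` algebraically independent functions (for `h = 0`:
there is a nonzero section, that is, `A` is `ℚ`-linearly equivalent to an effective divisor). -/
def IitakaGe (a : Place ℂ K → ℤ) (h : ℕ) : Prop :=
  ∃ m : ℕ, 0 < m ∧ ∃ f : Fin (h + 1) → K, f 0 ≠ 0 ∧
    (∀ b, ∀ P : Place ℂ K, Divisorial N P → f b = 0 ∨ - (m * a P) ≤ P.ord (f b)) ∧
    AlgebraicIndependent ℂ fun b : Fin h => f b.succ / f 0

end parts

/-- **The Campana-Peternell inequality.** Let `X` be a projective manifold birational to an abelian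
cover of the product of the projective `n i`-spaces which is branched along smooth hypersurfaces
`F i = 0` of the factors (that is, to a quotient of the product of the cyclic hypersurfaces
`w ^ (d i) = F i` by a group of diagonal automorphisms), and let `K` be the function field of `X`. Let
`A` be a divisor on `X` with `κ (A) ≥ h`, and let `ρ K_X - A` be pseudo-effective, `ρ ≥ 1`. Then
`h ≤ ∑ i ∈ I, n i ≤ κ (X)`, where `I` is the set of the indices `i` such that `v i = 0` for all
admissible `v` of weight one. -/
theorem result (r N R : ℕ) (n d : Fin r → ℕ) (hr : 1 ≤ r) (hn : ∀ i, 1 ≤ n i)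
    (hd : ∀ i, 1 ≤ d i) (hN : N = ∑ i, n i)
    (F : ∀ i, MvPolynomial (Fin (n i + 1)) ℂ) (hF : ∀ i, (F i).IsHomogeneous (d i))
    (hs : ∀ i, Smooth (F i)) (m : Fin R → ℕ) (hm : ∀ j, 1 ≤ m j) (a : Fin R → Fin r → ℕ)
    (hdiv : ∀ j i, m j ∣ a j i * d i)
    (K : Type) [Field K] [Algebra ℂ K] (x : ∀ i, Fin (n i + 1) → K) (hx0 : ∀ i, x i 0 ≠ 0)
    (hbas : IsTranscendenceBasis ℂ (affine x)) (z : Fin R → K)
    (hz : ∀ j, z j ^ m j = ∏ i, (aeval (x i) (F i) / x i 0 ^ d i) ^ a j i)
    (hgen : IntermediateField.adjoin ℂ (Set.range (affine x) ∪ Set.range z) = ⊤)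
    (I : Finset (Fin r))
    (hI : ∀ i, i ∈ I ↔ ∀ v, Admissible m a v → weight n d v = 1 → v i = 0)
    (ρ : ℕ) (hρ : 1 ≤ ρ) (A : Place ℂ K → ℤ) (hA : RestPseudoeffective N K ρ A)
    (h : ℕ) (hh : IitakaGe N K A h) :
    h ≤ ∑ i ∈ I, n i ∧ KodairaGe N K (∑ i ∈ I, n i) ∧ KodairaGe N K h := by
  have hw : ∀ v : Fin r → ℕ, weight n d v = ∑ i, (((d i : ℚ) - n i - 1) / d i) * v i := by
    intro v
    unfold weight
    refine Finset.sum_congr rfl fun i _ => ?_
    have h1 : (d i : ℚ) ≠ 0 := by
      have := hd i
      exact_mod_cast (by omega : d i ≠ 0)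
    congr 1
    field_simp
    ring
  simp only [hw] at hI
  obtain ⟨h1, -, h3⟩ :=
    Pool.Agent.Y169.CH.main hr hn hN hd hF hs hx0 hbas hm hdiv hz hgen I hI
  obtain ⟨h4, h5⟩ := h3 (h1.1 (Pool.Agent.Y169.CP.psef_of_rest hρ hA hh))
  have h6 := Pool.Agent.X213.CPq.cp_le h5 hρ hA hh
  exact ⟨h6, h4, Pool.Agent.Y169.CP.AKod.mono h6 h4⟩

end Pool.Agent.Results.MP_370cf3_ag.HypersurfaceQuotients
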