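import Pool.Agent.X213.CPq
import Pool.Agent.Y169.TH.Mak

/-!
# The Campana-Peternell inequality for covers branched along normal crossing hypersurfaces

Let `F k`, `k = 0, ..., n`, be forms of degrees `d k` in `n + 1` variables whose zero sets in the
projective `n`-space are smooth hypersurfaces with normal crossings. Let `X` be a projective manifold
which is birational to an abelian cover of the projective space which is branched only along these
hypersurfaces: the function field `K` of `X` is generated by the affine coordinates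
`x (b + 1) / x 0` and by roots `z j`, `z j ^ (m j) = ∏ k, (F k (x) / x 0 ^ (d k)) ^ (a j k)`, where
`m j` divides `∑ k, a j k * d k`. (Covers which are branched along fewer hypersurfaces are included:
add general hyperplanes, with `a j k = 0`.)

Let `A` be ANY divisor on `X` with `κ (A) ≥ 0` such that `ρ K_X - A` is pseudo-effective for some
`ρ ≥ 1` (so `K_X` is, up to `ℚ`-linear equivalence, the sum of the effective `ℚ`-divisor `A / ρ` and
a pseudo-effective one). Then `κ (A) ≤ κ (X)`, and `κ (X)` is the dimension of the `polyhedron` of the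
rational points `y` with `∑ k, d k * y k = ∑ k, (d k - 1)` and `∑ k, v k * y k ≥ 1` for all
`Admissible` vectors `v`: these are the vectors `v ≠ 0` of nonnegative integers, not all positive,
with `m j ∣ ∑ k, a j k * v k` for all `j` (the multiplicities of the hypersurfaces along the divisors
over `X`).

The covers have quotient singularities, in general not canonical ones, and `κ (X)` may be strictly
between `0` and `n`: for the surface `z ^ 3 = F 0 * F 1 ^ 2 * F 2` with `d = (1, 3, 2)` one has
`κ (X) = 1`. `A` may have components which are exceptional over the cover.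

Method. If there is such an `A` then `K_X` is pseudo-effective, and by the theorem of the starting
file `MP_97d78d_ag.NormalCrossingCovers` the numerical dimension of `K_X` is the dimension of the
polyhedron. The products of a section of `j (ρ K_X - A) + H` with the monomials in the sections of a
multiple of `A` are sections of a multiple of `K_X` twisted by `H`, and their number is bounded by the
numerical dimension.
-/

set_option autoImplicit false

open FF MvPolynomial Pool.Agent.W602.GT

namespace Pool.Agent.Results.MP_370cf3_ag.NormalCrossingCovers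

/-- The hypersurfaces `F k = 0` have normal crossings: at every point of the projective space the
gradients of the forms `F k` which vanish at this point are linearly independent. -/
def NormalCrossings {n : ℕ} (F : Fin (n + 1) → MvPolynomial (Fin (n + 1)) ℂ) : Prop :=
  ∀ x : Fin (n + 1) → ℂ, x ≠ 0 → LinearIndependent ℂ
    fun (k : {k // eval x (F k) = 0}) (l : Fin (n + 1)) => eval x (pderiv l (F k.1))

/-- The affine coordinates of the projective space. -/
noncomputable def affine {n : ℕ} {K : Type} [Field K] (x : Fin (n + 1) → K) (b : Fin n) : K :=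
  x b.succ / x 0

section

variable {n R : ℕ}

/-- The multiplicities which satisfy the divisibility conditions. -/
def Admissible (m : Fin R → ℕ) (a : Fin R → Fin (n + 1) → ℕ) (v : Fin (n + 1) → ℕ) : Prop :=
  v ≠ 0 ∧ (∃ k, v k = 0) ∧ ∀ j, m j ∣ ∑ k, a j k * v k

/-- The exponents of the regular forms. -/
def polyhedron (m : Fin R → ℕ) (a : Fin R → Fin (n + 1) → ℕ) (d : Fin (n + 1) → ℕ) :
    Set (Fin (n + 1) → ℚ) :=
  {y | ∑ k, (d k : ℚ) * y k = ∑ k, ((d k : ℚ) - 1) ∧
    ∀ v, Admissible m a v → 1 ≤ ∑ k, (v k : ℚ) * y k}

end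

section sections

/-- `ω` is a section of `m K_X + j A`: a rational section of the `m`-th power of the canonical
bundle (`IsPluri`: a function of `N` rational vector fields which is multiplied by `det B ^ m` under
a linear substitution `B`) whose order on the vector fields which are regular at `P` is at least `j`
times the order of one of the functions in `S`, for all prime divisors `P` over `X` (all divisorial
places `P` of `K`). Here `A` is the divisor which is generated by the finite set `S` of functions;
`A = 0` if `S = {1}`. -/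
def IsSection {K : Type} [Field K] [Algebra ℂ K] (N : ℕ) (S : Finset K) (m j : ℕ)
    (ω : (Fin N → Derivation ℂ K K) → K) : Prop :=
  IsPluri m ω ∧ ∀ P : Place ℂ K, Divisorial N P → ∀ D : Fin N → Derivation ℂ K K,
    (∀ c, DerReg P (D c)) → ω D = 0 ∨ ∃ s ∈ S, s ≠ 0 ∧ j * P.ord s ≤ P.ord (ω D)

variable (N : ℕ) (K : Type) [Field K] [Algebra ℂ K]

/-- `κ (X) ≥ h`: for some `m > 0` there are sections of `m K_X` whose ratios contain `h`
algebraically independent functions (for `h = 0`: there is a nonzero section). -/
def KodairaGe (h : ℕ) : Prop :=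
  ∃ m : ℕ, 0 < m ∧ ∃ ω : Fin (h + 1) → (Fin N → Derivation ℂ K K) → K,
    (∀ b, IsSection N {1} m 1 (ω b)) ∧
    ∃ D, ω 0 D ≠ 0 ∧ AlgebraicIndependent ℂ (fun b : Fin h => ω b.succ D / ω 0 D)

end sections

section parts

variable (N : ℕ) (K : Type) [Field K] [Algebra ℂ K]

/-- `r K_X - A` is pseudo-effective, where `a P` is the multiplicity of (the pull back of) the divisor
`A` at the prime divisor `P` over `X`: for some divisor `H`, generated by a finite set `S` of
functions, the divisors `j (r K_X - A) + H`, `j ≥ 1`, are effective. -/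
def RestPseudoeffective (r : ℕ) (a : Place ℂ K → ℤ) : Prop :=
  ∃ S : Finset K, ∀ j : ℕ, 1 ≤ j → ∃ ω : (Fin N → Derivation ℂ K K) → K, ω ≠ 0 ∧
    IsPluri (j * r) ω ∧ ∀ P : Place ℂ K, Divisorial N P → ∀ D : Fin N → Derivation ℂ K K,
      (∀ c, DerReg P (D c)) → ω D = 0 ∨ ∃ s ∈ S, s ≠ 0 ∧ j * a P + P.ord s ≤ P.ord (ω D)

/-- `κ (A) ≥ h`: for some `m > 0` there are sections of `m A` (functions `f` with
`ord_P f + m A_P ≥ 0`) whose ratios contain `h` algebraically independent functions (for `h = 0`:
there is a nonzero section, that is, `A` is `ℚ`-linearly equivalent to an effective divisor). -/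
def IitakaGe (a : Place ℂ K → ℤ) (h : ℕ) : Prop :=
  ∃ m : ℕ, 0 < m ∧ ∃ f : Fin (h + 1) → K, f 0 ≠ 0 ∧
    (∀ b, ∀ P : Place ℂ K, Divisorial N P → f b = 0 ∨ - (m * a P) ≤ P.ord (f b)) ∧
    AlgebraicIndependent ℂ fun b : Fin h => f b.succ / f 0

end parts

/-- **The Campana-Peternell inequality.** Let `X` be a projective manifold birational to an abelian
cover of the projective `n`-space which is branched along `n + 1` hypersurfaces `F k = 0` with normal
crossings, and let `K` be the function field of `X`. Let `A` be a divisor on `X` with `κ (A) ≥ h`, and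
let `ρ K_X - A` be pseudo-effective, `ρ ≥ 1`. Then `h` is at most the dimension of the polyhedron, and
`κ (X)` is at least this dimension. -/
theorem result (n R : ℕ) (hn : 1 ≤ n) (d : Fin (n + 1) → ℕ) (hd : ∀ k, 1 ≤ d k)
    (F : Fin (n + 1) → MvPolynomial (Fin (n + 1)) ℂ) (hF : ∀ k, (F k).IsHomogeneous (d k))
    (hs : NormalCrossings F) (m : Fin R → ℕ) (hm : ∀ j, 1 ≤ m j) (a : Fin R → Fin (n + 1) → ℕ)
    (hdiv : ∀ j, m j ∣ ∑ k, a j k * d k)
    (K : Type) [Field K] [Algebra ℂ K] (x : Fin (n + 1) → K) (hx0 : x 0 ≠ 0)
    (hbas : IsTranscendenceBasis ℂ (affine x)) (z : Fin R → K)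
    (hz : ∀ j, z j ^ m j = ∏ k, (aeval x (F k) / x 0 ^ d k) ^ a j k)
    (hgen : IntermediateField.adjoin ℂ (Set.range (affine x) ∪ Set.range z) = ⊤)
    (ρ : ℕ) (hρ : 1 ≤ ρ) (A : Place ℂ K → ℤ) (hA : RestPseudoeffective n K ρ A)
    (h : ℕ) (hh : IitakaGe n K A h) :
    h ≤ Module.finrank ℚ (vectorSpan ℚ (polyhedron m a d)) ∧
    KodairaGe n K (Module.finrank ℚ (vectorSpan ℚ (polyhedron m a d))) ∧ KodairaGe n K h := by
  obtain ⟨e, rfl⟩ : ∃ e, n = e + 1 := ⟨n - 1, by omega⟩
  have hp : polyhedron m a d = Pool.Agent.Y169.TH.PiA m a d := by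
    unfold polyhedron Pool.Agent.Y169.TH.PiA
    rw [Finset.sum_sub_distrib]
    simp only [Finset.sum_const, Finset.card_univ, Fintype.card_fin, nsmul_eq_mul, mul_one]
    rfl
  rw [hp]
  obtain ⟨h1, -, h3⟩ := Pool.Agent.Y169.TH.main hx0 hbas hd hF hs hm hz hdiv hgen
  obtain ⟨h4, h5⟩ := h3 (h1.1 (Pool.Agent.Y169.CP.psef_of_rest hρ hA hh))
  have h6 := Pool.Agent.X213.CPq.cp_le h5 hρ hA hh
  exact ⟨h6, h4, Pool.Agent.Y169.CP.AKod.mono h6 h4⟩

end Pool.Agent.Results.MP_370cf3_ag.NormalCrossingCovers
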