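import Pool.Agent.X213.PpcCP

/-!
# The Campana-Peternell inequality for varieties generically finite over products of projective spaces

Let `X` be a projective variety with canonical singularities (for instance a projective manifold)
and `X ⇢ ∏ i, ℙ ^ (n i)` a generically finite dominant rational map, `i < r`. On the factors
hyperplanes `ℓ i k = 0`, `k < q i`, are given, arbitrary arrangements (general position is not
assumed). The number `v i k` is the multiplicity of the hyperplane `ℓ i k = 0` at a place of the
function field `K` of `X`. Suppose: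

* (lower bounds, at the prime divisors `P` of `X` only) for each factor let `g i` be one of the
  functions `(max v i k) / (n i + 2)` (the arrangement must not be reducible),
  `(max v i k) / (n i + 1)` (and does not consist of `n i + 2` hyperplanes in general position),
  or the (combinatorial) log discrepancy with respect to a log Calabi-Yau pair
  `(ℙ ^ (n i), ∑ w k H k)`. If not all `v i k` are zero at `P`, then `1 ≤ ∑ i, g i (v i)`; and
  `1 < ∑ i, g i (v i)` if the distinguished hyperplane `k0 i` of a factor `i ∈ I` has a positive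
  multiplicity at `P`;
* (upper bounds, at the places `P` over the prime divisors of the product; `m` is the
  ramification index) for the factors `i ∉ I` there are weights `w i k ≥ 0` of the hyperplanes
  with the sum `n i + 1` such that `m ≤ 1 + ∑ k, w i k * v i k` if not all `v i k`, `k < q i`, are
  zero; and `m = 1` if all multiplicities `v i k` of all factors are zero and none of finitely many
  functions `f ∈ F`, which are pulled back from the product of the factors `i ∈ I`, has a zero or a
  pole at `P`. So the ramification over the divisors which come from the product of the factors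
  `i ∈ I` is arbitrary.

Then the Campana-Peternell inequality holds on `X`: if `D` is an effective `ℚ`-divisor on `X` and
`K_X - D` is pseudo-effective then `κ(D) ≤ κ(X)`. Here `κ(X) = ∑ i ∈ I, n i` (this
equality and the one with the numerical dimension, for the same varieties, are handed in as
`MP_c2a5fc_ag/ProjectiveProductCovers.lean`); `κ(X)` may be any number between `0` and `dim X`, the
set `I` is arbitrary. The inequality does not follow from `κ(X) = ν(X)`, where `ν` is the growth of
`h⁰(⌊m K_X⌋ + A)` for integral `A`, without a theory of pseudo-effective classes: the pseudo-effective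
part is here given by effective divisors `t m1 (K_X - D) + H` with a fixed effective `ℚ`-divisor `H`.

The proof: products of the sections of multiples of `D` with sections of `t m1 (K_X - D) + H` are
sections of `t m1 K_X + H`. For the bound of their number the traces to the product of the
projective spaces are polynomials whose degrees in the coordinates of the factors `i ∉ I` are
bounded, up to a denominator which does not depend on `t`; since the singularities of `X` are
canonical, the orders of the sections at all places of `K` (also at those whose centre on `X` is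
small) are bounded below independently of `t` (`Pool.Agent.Y191.can_bound`).

The definitions of the Kodaira dimension, of pseudo-effective differences and of the Iitaka
dimension are those of `Pool.Agent.Y172` and `Pool.Agent.Y191`: `X` is given by the homogeneous
coordinates `y` of its generic point, with values in `K`; the prime divisors of `X` are places `P`
of `K`, `P.ord` is the order along `P`.
-/

set_option autoImplicit false

open FF Module MvPolynomial Pool.Agent.W602.Cov Pool.Agent.W602.GT Pool.Agent.TH152.AC
open Pool.Agent.Y172 Pool.Agent.Y191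

namespace Pool.Agent.Results.MP_370cf3_ag.ProjectiveProductCovers

section bounds

variable {n q : ℕ}

/-- In suitable linear coordinates `X 0, ..., X n` each of the hyperplanes is one of `X j = 0` or
`X 0 + ... + X n = 0`. The arrangements with this property which are not reducible are, up to
repetitions, the arrangements of `n + 2` hyperplanes in general position. -/
def Simplicial (ℓ : Fin q → Form n) : Prop :=
  ∃ X : Basis (Fin (n + 1)) ℂ (Form n), ∀ i,
    (∃ c : ℂ, ℓ i = c • ∑ j, X j) ∨ ∃ (j : Fin (n + 1)) (c : ℂ), ℓ i = c • X j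

/-- `(ℙ ^ n, ∑ w k H k)` is a log Calabi-Yau pair with rational weights: `w` is a rational convex
combination of the vectors with entries `1` for the `n + 1` hyperplanes of a basis `B` (that is, of
`n + 1` linearly independent ones) and `0` for all others. -/
def LogCalabiYau (ℓ : Fin q → Form n) (w : Fin q → ℚ) : Prop :=
  ∃ p : Bases ℓ → ℕ, 0 < ∑ B, p B ∧ ∀ k, (∑ B, (p B : ℚ)) * w k =
    ∑ B, (p B : ℚ) * ((Finset.univ.filter fun a => B.1 a = k).card : ℚ)

/-- The maximum of the sums of the `v k` over the bases, minus the sum of the `w k * v k`. This is the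
log discrepancy of the pair `(ℙ ^ n, ∑ w k H k)` at the toric divisors over the projective space along
which the hyperplanes have the multiplicities `v k`, and a lower bound for it at all divisors with
these multiplicities. -/
noncomputable def logDiscrepancy (ℓ : Fin q → Form n) (w : Fin q → ℚ) (v : Fin q → ℕ) : ℚ :=
  ((Finset.univ.sup fun B : Bases ℓ => ∑ a, v (B.1 a) : ℕ) : ℚ) - ∑ k, w k * v k

/-- The lower bounds for one arrangement. -/
inductive Bound (ℓ : Fin q → Form n) : ((Fin q → ℕ) → ℚ) → Prop
  | irreducible : ¬ Reducible ℓ →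
      Bound ℓ fun v => ((Finset.univ.sup v : ℕ) : ℚ) / ((n + 2 : ℕ) : ℚ)
  | notSimplicial : ¬ Reducible ℓ → ¬ Simplicial ℓ →
      Bound ℓ fun v => ((Finset.univ.sup v : ℕ) : ℚ) / ((n + 1 : ℕ) : ℚ)
  | logCalabiYau (w : Fin q → ℚ) : LogCalabiYau ℓ w → Bound ℓ (logDiscrepancy ℓ w)

end bounds

/-- The value of a linear form at a vector over `K`. -/
noncomputable def form {n : ℕ} {K : Type} [Field K] [Algebra ℂ K] (φ : Form n)
    (x : Fin (n + 1) → K) : K := ∑ j, algebraMap ℂ K (φ (Pi.single j 1)) * x j

section divisors

variable {r : ℕ} {n q : Fin r → ℕ} {K : Type} [Field K] [Algebra ℂ K]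

/-- The affine coordinates of the product of the projective spaces. -/
noncomputable def affine (x : ∀ i, Fin (n i + 1) → K) (b : (i : Fin r) × Fin (n i)) : K :=
  x b.1 b.2.succ / x b.1 0

/-- The hyperplanes `ℓ i k` have the multiplicities `v i k` at `P`: their orders are `a i + v i k`,
where `a i` is the minimum of the orders of all linear forms on the `i`-th factor. -/
def Multiplicities (ℓ : ∀ i, Fin (q i) → Form (n i)) (x : ∀ i, Fin (n i + 1) → K)
    (P : Place ℂ K) (a : Fin r → ℤ) (v : ∀ i, Fin (q i) → ℕ) : Prop :=
  (∀ i (φ : Form (n i)), form φ (x i) = 0 ∨ a i ≤ P.ord (form φ (x i))) ∧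
    (∀ i, ∃ φ : Form (n i), form φ (x i) ≠ 0 ∧ P.ord (form φ (x i)) = a i) ∧
    ∀ i k, P.ord (form (ℓ i k) (x i)) = a i + v i k

/-- The degree of a polynomial in the affine coordinates of the `i`-th factor. -/
def degreeIn (i : Fin r) (f : MvPolynomial ((i : Fin r) × Fin (n i)) ℂ) : ℕ :=
  f.support.sup fun m => ∑ j : Fin (n i), m ⟨i, j⟩

/-- The place `P` of `K` lies over a prime divisor of the product of the projective spaces, with
ramification index `m`: over the hypersurface `p = 0`, `p` an irreducible polynomial in the affine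
coordinates, or over the hyperplane at infinity `x i 0 = 0` of the `i`-th factor. -/
def LiesOver (x : ∀ i, Fin (n i + 1) → K) (P : Place ℂ K) (m : ℕ) : Prop :=
  (∃ p : MvPolynomial ((i : Fin r) × Fin (n i)) ℂ, Irreducible p ∧
    P.ord (aeval (affine x) p) = m ∧ ∀ f, f ≠ 0 → 0 ≤ P.ord (aeval (affine x) f) ∧
      (P.ord (aeval (affine x) f) = 0 ↔ ¬ p ∣ f)) ∨
  (0 < m ∧ ∃ i, ∀ f, f ≠ 0 → P.ord (aeval (affine x) f) = - ((m : ℤ) * (degreeIn i f : ℤ)))

end divisors

/-- `X` is a projective variety of dimension `N` with canonical singularities. -/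
def IsCanonicalVariety {K : Type} [Field K] [Algebra ℂ K] {M : ℕ} (y : Fin (M + 1) → K) (N : ℕ) :
    Prop :=
  NormalModel y ∧ Algebra.trdeg ℂ K = N ∧ Canonical y N

/-- The Campana-Peternell inequality: if `D` is an effective `ℚ`-divisor on `X` such that
`K_X - D` is pseudo-effective, then `κ(D) ≤ κ(X)`. -/
def CampanaPeternell {K : Type} [Field K] [Algebra ℂ K] {M : ℕ} (y : Fin (M + 1) → K) (N : ℕ) :
    Prop :=
  ∀ D : Place ℂ K → ℚ, Effective y D → PsefSub y N 0 D →
    ∀ h : ℕ, IitakaGe y D h → (h : WithBot ℕ) ≤ kodairaDim y N 0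

/-- **The Campana-Peternell inequality.** Let `X` be a projective variety with canonical
singularities of dimension `∑ i, n i` and `X ⇢ ∏ i, ℙ ^ (n i)` a dominant rational map, let `g i` be
lower bounds for the arrangements `ℓ i` and let `I` be a set of factors. Suppose that at the prime
divisors of `X` at which some multiplicity is positive `1 ≤ ∑ i, g i (v i)`, and
`1 < ∑ i, g i (v i)` if the multiplicity of the distinguished hyperplane of a factor in `I` is
positive, and that at the places over the prime divisors of the product the ramification index `m`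
satisfies `m ≤ 1 + ∑ k, w i k * v i k` for all `i ∉ I` with `v i ≠ 0`, for weights `w i k ≥ 0` with
the sum `n i + 1`, and `m = 1` if all `v i k` are zero, up to finitely many hypersurfaces which are
pulled back from the product of the factors in `I`. Then `κ(D) ≤ κ(X)` for every effective
`ℚ`-divisor `D` on `X` such that `K_X - D` is pseudo-effective. -/
theorem result (r : ℕ) (hr : 1 ≤ r) (n q : Fin r → ℕ) (hn : ∀ i, 1 ≤ n i)
    (ℓ : ∀ i, Fin (q i) → Form (n i)) (hℓ : ∀ i k, ℓ i k ≠ 0)
    (g : ∀ i, (Fin (q i) → ℕ) → ℚ) (hg : ∀ i, Bound (ℓ i) (g i))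
    (I : Finset (Fin r)) (k0 : ∀ i, Fin (q i)) (w : ∀ i, Fin (q i) → ℚ)
    (hw0 : ∀ i, i ∉ I → ∀ k, 0 ≤ w i k) (hw1 : ∀ i, i ∉ I → ∑ k, w i k = (n i : ℚ) + 1)
    (F : Finset (MvPolynomial ((i : Fin r) × Fin (n i)) ℂ)) (hF0 : ∀ f ∈ F, f ≠ 0)
    (hF : ∀ f ∈ F, ∀ i, i ∉ I → degreeIn i f = 0)
    (K : Type) [Field K] [Algebra ℂ K] (M : ℕ) (y : Fin (M + 1) → K)
    (hy : IsCanonicalVariety y (∑ i, n i))
    (x : ∀ i, Fin (n i + 1) → K) (hx : ∀ i, x i 0 ≠ 0)
    (hdom : IsTranscendenceBasis ℂ (affine x))
    (hlow : ∀ P, IsPrimeDivisor y P → ∀ (a : Fin r → ℤ) (v : ∀ i, Fin (q i) → ℕ),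
      Multiplicities ℓ x P a v → (∃ i, v i ≠ 0) →
      1 ≤ ∑ i, g i (v i) ∧ ((∃ i ∈ I, v i (k0 i) ≠ 0) → 1 < ∑ i, g i (v i)))
    (hup : ∀ P m, LiesOver x P m → ∀ (a : Fin r → ℤ) (v : ∀ i, Fin (q i) → ℕ),
      Multiplicities ℓ x P a v →
      ((∀ i, v i = 0) → (∀ f ∈ F, P.ord (aeval (affine x) f) = 0) → m = 1) ∧
        ∀ i, i ∉ I → v i ≠ 0 → (m : ℚ) ≤ 1 + ∑ k, w i k * v i k) :
    CampanaPeternell y (∑ i, n i) := by
  have hwtd : ∀ i, Pool.Agent.TH756.PN.Wtd (ℓ i) (g i) := by
    intro i
    obtain ⟨G, hG⟩ : ∃ G, G = g i := ⟨_, rfl⟩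
    have h1 := hg i
    rw [← hG] at h1 ⊢
    cases h1 with
    | irreducible h2 =>
      exact Pool.Agent.TH756.PN.wtd_slack (by omega)
        (Pool.Agent.TH756.PR.slack_of_bnd (hn i) (hℓ i) h2 (Or.inl rfl))
        (Pool.Agent.W392.CG.span_top (hn i) (ℓ i) h2)
    | notSimplicial h2 h3 =>
      exact Pool.Agent.TH756.PN.wtd_slack (by omega)
        (Pool.Agent.TH756.PR.slack_of_bnd (hn i) (hℓ i) h2 (Or.inr ⟨rfl, Or.inr h3⟩))
        (Pool.Agent.W392.CG.span_top (hn i) (ℓ i) h2)
    | logCalabiYau w h2 => exact Pool.Agent.TH756.PN.BasePt.wtd h2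
  intro D hD hps h hκ
  rw [(Pool.Agent.X324.PA.abundance hr hn rfl hy.1 hy.2.1 hy.2.2 hℓ g hwtd I k0 w hw0 hw1 F hF0 hF
    hx hdom hlow hup).1]
  exact_mod_cast Pool.Agent.X213.PpcCP.cp_main hr hn rfl hy.1 hy.2.2 hℓ I w hw0 hw1 F hF0 hF hx hdom
    hup hps hκ

end Pool.Agent.Results.MP_370cf3_ag.ProjectiveProductCovers
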